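import Pool.Agent.H710R3.RA.Main

/-!
# Reductive algebras which contain a bounded homomorphic image of a C*-algebra

It is known that a reductive operator which is similar to a normal operator is normal. We prove the corresponding statements
for reductive algebras and arbitrary bounded (not necessarily *-preserving) representations of arbitrary C*-algebras.
-/

set_option autoImplicit false

open scoped InnerProductSpace

namespace Pool.Agent.Results.MP_49c4d9_an.CStarHomomorphicImages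

open ContinuousLinearMap

variable {H : Type} [NormedAddCommGroup H] [InnerProductSpace ℂ H] [CompleteSpace H]

/-- The algebra `B` of bounded operators is closed in the weak operator topology. -/
def WeaklyClosed (B : Subalgebra ℂ (H →L[ℂ] H)) : Prop :=
  ∀ T : H →L[ℂ] H, (∀ (F : Finset (H × H)) (ε : ℝ), 0 < ε → ∃ S ∈ B, ∀ p ∈ F, ‖⟪(T - S) p.1, p.2⟫_ℂ‖ < ε) → T ∈ B

/-- All common invariant (closed) subspaces of the members of `B` are reducing. -/
def Reductive (B : Subalgebra ℂ (H →L[ℂ] H)) : Prop :=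
  ∀ M : Submodule ℂ H, IsClosed (M : Set H) → (∀ A ∈ B, ∀ x ∈ M, A x ∈ M) →
    ∀ A ∈ B, ∀ x ∈ Mᗮ, A x ∈ Mᗮ

/-- `B` contains the adjoints of its members. -/
def SelfAdjoint (B : Subalgebra ℂ (H →L[ℂ] H)) : Prop := ∀ X ∈ B, adjoint X ∈ B

/-- The commutant of the range of a map `u`. -/
def commutant {A : Type} (u : A → (H →L[ℂ] H)) : Set (H →L[ℂ] H) := {X | ∀ a, X * u a = u a * X}

/-- Let `B` be a weakly closed reductive algebra of operators on a complex Hilbert space which contains the range of a bounded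
unital homomorphism `u` (not assumed to preserve the involution) of a C*-algebra `A`.

(1) If the commutant of `u(A)` is commutative, then `B` is self-adjoint.

(2) If every member of `B` commutes with the commutant of `u(A)` (for instance if `B` is the weak closure of `u(A)`), then `B`
is self-adjoint.

(3) In particular, if `u(A)` is weakly dense in `B`, then `B` is self-adjoint. -/
theorem result (B : Subalgebra ℂ (H →L[ℂ] H)) (hW : WeaklyClosed B) (hred : Reductive B) :
    (∀ (A : Type) [CStarAlgebra A] (u : A →ₐ[ℂ] (H →L[ℂ] H)), Continuous u → (∀ a, u a ∈ B) →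
      (∀ X ∈ commutant u, ∀ Y ∈ commutant u, X * Y = Y * X) → SelfAdjoint B) ∧
    (∀ (A : Type) [CStarAlgebra A] (u : A →ₐ[ℂ] (H →L[ℂ] H)), Continuous u → (∀ a, u a ∈ B) →
      (∀ X ∈ commutant u, ∀ Y ∈ B, X * Y = Y * X) → SelfAdjoint B) ∧
    (∀ (A : Type) [CStarAlgebra A] (u : A →ₐ[ℂ] (H →L[ℂ] H)), Continuous u → (∀ a, u a ∈ B) →
      (∀ T ∈ B, ∀ (F : Finset (H × H)) (ε : ℝ), 0 < ε → ∃ a, ∀ p ∈ F, ‖⟪(T - u a) p.1, p.2⟫_ℂ‖ < ε) →
      SelfAdjoint B) := by
  classical
  have h1 : ∀ (A : Type) [CStarAlgebra A] (u : A →ₐ[ℂ] (H →L[ℂ] H)), Continuous u → (∀ a, u a ∈ B) →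
      (∀ X ∈ commutant u, ∀ Y ∈ commutant u, X * Y = Y * X) → SelfAdjoint B :=
    fun A _ u hu huB hc => H710R3.RA.main B hW hred u hu huB (Or.inl fun X Y hX hY => hc X hX Y hY)
  have h2 : ∀ (A : Type) [CStarAlgebra A] (u : A →ₐ[ℂ] (H →L[ℂ] H)), Continuous u → (∀ a, u a ∈ B) →
      (∀ X ∈ commutant u, ∀ Y ∈ B, X * Y = Y * X) → SelfAdjoint B :=
    fun A _ u hu huB hc => H710R3.RA.main B hW hred u hu huB (Or.inr fun X hX Y hY => hc X hX Y hY)
  refine ⟨h1, h2, fun A _ u hu huB hd => h2 A u hu huB ?_⟩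
  intro X hX Y hY
  -- `X` commutes with the weak closure of the range
  refine ContinuousLinearMap.ext fun x => ?_
  refine ext_inner_right ℂ fun y => ?_
  by_contra hne
  set d : ℝ := ‖⟪(X * Y) x, y⟫_ℂ - ⟪(Y * X) x, y⟫_ℂ‖ with hd0
  have hdpos : 0 < d := norm_pos_iff.2 (sub_ne_zero.2 hne)
  obtain ⟨a, ha⟩ := hd Y hY {(x, adjoint X y), (X x, y)} (d / 2) (by positivity)
  have e1 := ha (x, adjoint X y) (by simp)
  have e2 := ha (X x, y) (by simp)
  have e3 : ⟪(X * Y) x, y⟫_ℂ - ⟪(Y * X) x, y⟫_ℂ =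
      ⟪(Y - u a) x, adjoint X y⟫_ℂ - ⟪(Y - u a) (X x), y⟫_ℂ := by
    have e4 : (u a) (X x) = X (u a x) := by
      have := congrArg (fun S : H →L[ℂ] H => S x) (hX a)
      exact this.symm
    rw [adjoint_inner_right]
    simp only [ContinuousLinearMap.mul_apply, ContinuousLinearMap.sub_apply, map_sub, inner_sub_left, e4]
    ring
  have e6 : d = ‖⟪(Y - u a) x, adjoint X y⟫_ℂ - ⟪(Y - u a) (X x), y⟫_ℂ‖ := by rw [hd0, e3]
  have e5 := norm_sub_le (⟪(Y - u a) x, adjoint X y⟫_ℂ) (⟪(Y - u a) (X x), y⟫_ℂ)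
  rw [← e6] at e5
  have e1' : ‖⟪(Y - u a) x, adjoint X y⟫_ℂ‖ < d / 2 := e1
  have e2' : ‖⟪(Y - u a) (X x), y⟫_ℂ‖ < d / 2 := e2
  linarith

end Pool.Agent.Results.MP_49c4d9_an.CStarHomomorphicImages
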