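import Pool.Agent.X240.LE.Red

/-!
# MP_49c4d9_an: reductive essentially normal operators and lemniscates

Let `T` be a reductive operator on a complex Hilbert space such that `T*T - TT*` is compact.  Suppose that
any two points `a₁ ≠ a₂` of the spectrum of `T` are separated by lemniscates on which `log ‖(z - T)⁻¹‖` is
integrable: there are a polynomial `p` and disjoint closed discs `D₁`, `D₂` with `p a₁ ∈ D₁°`, `p a₂ ∈ D₂°`
such that for almost all points `w` of the circles `∂D₁`, `∂D₂` no root `z` of `p z = w` is in the spectrum
of `T` and the largest of the numbers `log⁺ ‖(z - T)⁻¹‖` over these roots has an integrable bound.  Then `T`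
is normal.

In the starting result `ReductiveLogIntegrable` the spectrum is a null set of the plane and
`log⁺ ‖(z - T)⁻¹‖` is integrable with respect to the area on a neighbourhood of the spectrum; then almost
all circles can be taken as lemniscates (`p z = z`).  Here the spectrum may have positive area, and nothing
is assumed off the curves, which may cross the spectrum in sets of length zero.

The proof: the assumption passes to restrictions of `T` to reducing subspaces, with the same polynomials
and discs; by the two-lemniscates theorem (`Pool.Agent.X240.LE.two_lem`, see the hand-in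
`MP_5ac32f_an.TwoLemniscates`) a restriction whose spectrum has two points has a nontrivial hyperinvariant
subspace; then the minimal dimension argument of `Pool.Agent.W706.HIR` and `Pool.Agent.W610.HY.Reduct`
applies.
-/

set_option autoImplicit false

open MeasureTheory Metric Set Polynomial

namespace Pool.Agent.Results.MP_49c4d9_an.ReductiveLemniscates

/-- `φ` is an integrable bound, almost everywhere on the circle with centre `c` and radius `r`, for
`log⁺ ‖(z - T)⁻¹‖` at all roots `z` of `p z = w`, and these roots are not in the spectrum of `T`. -/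
def LogBound {X : Type} [NormedAddCommGroup X] [NormedSpace ℂ X] (T : X →L[ℂ] X) (p : ℂ[X])
    (c : ℂ) (r : ℝ) (φ : ℝ → ℝ) : Prop :=
  IntegrableOn φ (Ioc (0:ℝ) (2 * Real.pi)) ∧
    ∀ᵐ θ ∂(volume.restrict (Ioc (0:ℝ) (2 * Real.pi))), ∀ z : ℂ, p.eval z = circleMap c r θ →
      z ∉ spectrum ℂ T ∧ Real.posLog ‖resolvent T z‖ ≤ φ θ

/-- **Theorem.** A reductive operator with compact self-commutator such that any two points of the
spectrum are separated by lemniscates on which the logarithm of the resolvent is integrable is
normal. -/
theorem result (H : Type) [NormedAddCommGroup H] [InnerProductSpace ℂ H] [CompleteSpace H]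
    (T : H →L[ℂ] H)
    -- `T` is reductive
    (hred : ∀ V : Submodule ℂ H, IsClosed (V : Set H) → (∀ x ∈ V, T x ∈ V) →
      ∀ x ∈ V, ContinuousLinearMap.adjoint T x ∈ V)
    -- the self-commutator is compact
    (hc : IsCompactOperator (ContinuousLinearMap.adjoint T * T -
      T * ContinuousLinearMap.adjoint T : H →L[ℂ] H))
    -- any two points of the spectrum are separated by lemniscates
    (hsep : ∀ a₁ ∈ spectrum ℂ T, ∀ a₂ ∈ spectrum ℂ T, a₁ ≠ a₂ →
      ∃ (p : ℂ[X]) (c₁ c₂ : ℂ) (r₁ r₂ : ℝ) (φ₁ φ₂ : ℝ → ℝ), r₁ + r₂ < ‖c₁ - c₂‖ ∧
        ‖p.eval a₁ - c₁‖ < r₁ ∧ ‖p.eval a₂ - c₂‖ < r₂ ∧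
        LogBound T p c₁ r₁ φ₁ ∧ LogBound T p c₂ r₂ φ₂) :
    IsStarNormal T := by
  have h := Pool.Agent.X240.LE.red_main T hred hc hsep
  constructor
  rw [Commute, SemiconjBy, ContinuousLinearMap.star_eq_adjoint]
  exact sub_eq_zero.1 h

end Pool.Agent.Results.MP_49c4d9_an.ReductiveLemniscates
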